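import Pool.Agent.H82.SR.Main

set_option autoImplicit false

/-!
# Spectrally rigid sets of primitive elements have dense counting currents

Problem MP_6092f3_al asks whether, for `N ≥ 2` and a set `S` of primitive elements of `F_N`, the
following are equivalent: (i) `S` is spectrally rigid; (ii) `{[η_g] : g ∈ S}` is dense in `𝕄_N`.
The implication (ii) ⇒ (i) is known; the posed open part is (i) ⇒ (ii).  We prove (i) ⇒ (ii) for
every `N ≥ 2` and every `S`.

Idea of the proof.  If `[η_{g₀}]` is not in the closure for a primitive `g₀`, we may assume by
applying an automorphism that `g₀` is a basis element `c`.  Then the axes of all elements of `S`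
contain a window of bounded length with at least three letters different from `c^{±1}`.  A suitable
automorphism `φ` turns this window into a piece of the axis of `φ g` which contains so many turns
that, by Whitehead's cut vertex lemma, the primitive element `φ g` can not take some fixed further
turn `{b⁻¹, d⁻¹}` of the Cayley tree (for `N = 2`, one of two turns).  All elements whose axes
avoid this turn have the same translation lengths in the Cayley tree in which the edges of `b` have
length two, and in the Cayley tree twisted by the automorphism `b ↦ b d`, which are different points
of outer space.
-/

namespace Pool.Agent.Results.MP_6092f3_al.RigidDense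

open Pool.Agent.H82.SR

/-- For every `N ≥ 2` and every spectrally rigid set `S` of primitive elements of the free group
`F_N`, the set `{[η_g] : g ∈ S}` is dense in `𝕄_N`: its closure in `ℙCurr(F_N)` is all of `𝕄_N`. -/
theorem result (N : ℕ) (hN : 2 ≤ N) (S : Set (FreeGroup (Fin N)))
    (hS : S ⊆ {g | IsPrimitive g}) (hrig : SpectrallyRigid S) :
    closure (countingClasses S) = MSpace N :=
  dense_of_rigid hN S hS hrig

end Pool.Agent.Results.MP_6092f3_al.RigidDense
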